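import Mathlib

set_option autoImplicit false

namespace Pool.Agent.Results.MP_a7ee28_al.NotInSpan

open Matrix

section Defs
variable {K : Type} [Field K] {n : ℕ}

/-- Irreducible tridiagonal: zero when `|i - j| > 1`, nonzero when `|i - j| = 1`. -/
def IrrTri (M : Matrix (Fin n) (Fin n) K) : Prop :=
  ∀ i j : Fin n, (((i : ℕ) + 1 < j ∨ (j : ℕ) + 1 < i) → M i j = 0) ∧
    (((i : ℕ) + 1 = j ∨ (j : ℕ) + 1 = i) → M i j ≠ 0)

/-- In some basis (the columns of an invertible `P`, with inverse `Q`) the map `A` is diagonal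
and the maps `B`, `C` are irreducible tridiagonal. -/
def DiagTri (A B C : Matrix (Fin n) (Fin n) K) : Prop :=
  ∃ P Q : Matrix (Fin n) (Fin n) K, P * Q = 1 ∧ Q * P = 1 ∧
    (Q * A * P).IsDiag ∧ IrrTri (Q * B * P) ∧ IrrTri (Q * C * P)

/-- Leonard pair on `K^n`. -/
def LeonardPair (A B : Matrix (Fin n) (Fin n) K) : Prop := DiagTri B A A ∧ DiagTri A B B

/-- Leonard triple on `K^n`. -/
def LeonardTriple (A B C : Matrix (Fin n) (Fin n) K) : Prop :=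
  DiagTri A B C ∧ DiagTri B A C ∧ DiagTri C A B

/-- `X, X', Y, Z` satisfy the relations of the equitable presentation (`X'` is `X⁻¹`), and
`K^n` is irreducible under them. -/
def IrrEquitable (q : K) (X X' Y Z : Matrix (Fin n) (Fin n) K) : Prop :=
  X * X' = 1 ∧ X' * X = 1 ∧
  (q - q⁻¹)⁻¹ • (q • (X * Y) - q⁻¹ • (Y * X)) = 1 ∧
  (q - q⁻¹)⁻¹ • (q • (Y * Z) - q⁻¹ • (Z * Y)) = 1 ∧
  (q - q⁻¹)⁻¹ • (q • (Z * X) - q⁻¹ • (X * Z)) = 1 ∧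
  ∀ W : Submodule K (Fin n → K),
    (∀ v ∈ W, X *ᵥ v ∈ W ∧ X' *ᵥ v ∈ W ∧ Y *ᵥ v ∈ W ∧ Z *ᵥ v ∈ W) → W = ⊥ ∨ W = ⊤

/-- `M` is a linear combination of `I, S, T, ST`. -/
def InSpan (M S T : Matrix (Fin n) (Fin n) K) : Prop :=
  M ∈ Submodule.span K ({1, S, T, S * T} : Set (Matrix (Fin n) (Fin n) K))

/-- `σ` is an antiautomorphism of the matrix algebra fixing `A` and `B`. -/
def IsDagger (A B : Matrix (Fin n) (Fin n) K)
    (σ : Matrix (Fin n) (Fin n) K ≃ₗ[K] Matrix (Fin n) (Fin n) K) : Prop :=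
  σ 1 = 1 ∧ (∀ M N, σ (M * N) = σ N * σ M) ∧ σ A = A ∧ σ B = B

end Defs

lemma irr2 (M : Matrix (Fin 2) (Fin 2) ℂ) (h1 : M 0 1 ≠ 0) (h2 : M 1 0 ≠ 0) : IrrTri M := by
  intro i j
  fin_cases i <;> fin_cases j <;> simp [h1, h2]

lemma diag2 (M : Matrix (Fin 2) (Fin 2) ℂ) (h1 : M 0 1 = 0) (h2 : M 1 0 = 0) : M.IsDiag := by
  intro i j h
  fin_cases i <;> fin_cases j <;> simp_all

lemma ext2 {M N : Matrix (Fin 2) (Fin 2) ℂ} (a : M 0 0 = N 0 0) (b : M 0 1 = N 0 1)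
    (c : M 1 0 = N 1 0) (d : M 1 1 = N 1 1) : M = N := by
  ext i j
  fin_cases i <;> fin_cases j <;> assumption

theorem result : ∃ (q : ℂ) (A B C X X' Y Z : Matrix (Fin 2) (Fin 2) ℂ),
    q ≠ 0 ∧ (∀ m : ℕ, 0 < m → q ^ m ≠ 1) ∧ LeonardPair A B ∧ IrrEquitable q X X' Y Z ∧
    InSpan A X Y ∧ InSpan B Y Z ∧ LeonardTriple A B C ∧ (∃ σ, IsDagger A B σ) ∧
    ¬ InSpan C Z X ∧ ∀ σ, IsDagger A B σ → ¬ InSpan (σ C) Z X := by
  have hA : ∀ M N : Matrix (Fin 2) (Fin 2) ℂ, M 0 1 ≠ 0 → M 1 0 ≠ 0 → N 0 1 ≠ 0 → N 1 0 ≠ 0 →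
      DiagTri !![1 / 2, 0; 0, 2] M N := by
    intro M N a b c d
    refine ⟨1, 1, by simp, by simp, diag2 _ (by simp) (by simp), irr2 _ ?_ ?_, irr2 _ ?_ ?_⟩ <;>
      simpa
  have hC : ¬ InSpan (!![3, 4; 4, -3] : Matrix (Fin 2) (Fin 2) ℂ) !![2, 0; -3 / 2, 1 / 2]
      !![1 / 2, 0; 0, 2] := by
    intro h
    have key : ∀ M ∈ Submodule.span ℂ ({1, !![2, 0; -3 / 2, 1 / 2], !![1 / 2, 0; 0, 2],
        !![2, 0; -3 / 2, 1 / 2] * !![1 / 2, 0; 0, 2]} : Set (Matrix (Fin 2) (Fin 2) ℂ)),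
        M 0 1 = 0 := by
      intro M hM
      induction hM using Submodule.span_induction with
      | mem x hx =>
        simp only [Set.mem_insert_iff, Set.mem_singleton_iff] at hx
        rcases hx with rfl | rfl | rfl | rfl <;> simp
      | zero => simp
      | add x y _ _ hx hy => simp [hx, hy]
      | smul a x _ hx => simp [hx]
    have := key _ h
    simp at this
  refine ⟨2, !![1 / 2, 0; 0, 2], !![0, 1; 1, 0], !![3, 4; 4, -3], !![1 / 2, 0; 0, 2],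
    !![2, 0; 0, 1 / 2], !![2, 3 / 2; 0, 1 / 2], !![2, 0; -3 / 2, 1 / 2], two_ne_zero, ?_,
    ⟨?_, hA _ _ (by simp) (by simp) (by simp) (by simp)⟩, ⟨?_, ?_, ?_, ?_, ?_, ?_⟩, ?_, ?_,
    ⟨hA _ _ (by simp) (by simp) (by simp) (by simp), ?_, ?_⟩, ?_, hC, ?_⟩
  · intro m hm h
    have h2 : (2 : ℕ) ^ m = 1 := by exact_mod_cast h
    have := Nat.one_lt_two_pow hm.ne'
    omega
  · refine ⟨!![1, 1; 1, -1], !![1 / 2, 1 / 2; 1 / 2, -1 / 2], ext2 ?_ ?_ ?_ ?_, ext2 ?_ ?_ ?_ ?_,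
      diag2 _ ?_ ?_, irr2 _ ?_ ?_, irr2 _ ?_ ?_⟩ <;> simp <;> norm_num
  · refine ext2 ?_ ?_ ?_ ?_ <;> simp
  · refine ext2 ?_ ?_ ?_ ?_ <;> simp
  · refine ext2 ?_ ?_ ?_ ?_ <;> simp <;> norm_num
  · refine ext2 ?_ ?_ ?_ ?_ <;> simp <;> norm_num
  · refine ext2 ?_ ?_ ?_ ?_ <;> simp <;> norm_num
  · intro W hW
    have hX0 : ∀ v : Fin 2 → ℂ, (!![1 / 2, 0; 0, 2] *ᵥ v) 0 = 1 / 2 * v 0 := fun v => by
      simp [mulVec, dotProduct, Fin.sum_univ_two]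
    have hX1 : ∀ v : Fin 2 → ℂ, (!![1 / 2, 0; 0, 2] *ᵥ v) 1 = 2 * v 1 := fun v => by
      simp [mulVec, dotProduct, Fin.sum_univ_two]
    have p0 : ∀ v ∈ W, v 0 ≠ 0 → (![1, 0] : Fin 2 → ℂ) ∈ W := by
      intro v hv h
      have := W.smul_mem (2 / (3 * v 0)) (sub_mem (W.smul_mem 2 hv) (hW v hv).1)
      convert this using 1
      ext i
      fin_cases i
      · change (1 : ℂ) = 2 / (3 * v 0) * (2 * v 0 - (!![1 / 2, 0; 0, 2] *ᵥ v) 0)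
        rw [hX0]; field_simp; ring
      · change (0 : ℂ) = 2 / (3 * v 0) * (2 * v 1 - (!![1 / 2, 0; 0, 2] *ᵥ v) 1)
        rw [hX1]; ring
    have p1 : ∀ v ∈ W, v 1 ≠ 0 → (![0, 1] : Fin 2 → ℂ) ∈ W := by
      intro v hv h
      have := W.smul_mem (2 / (3 * v 1)) (sub_mem (hW v hv).1 (W.smul_mem (1 / 2) hv))
      convert this using 1
      ext i
      fin_cases i
      · change (0 : ℂ) = 2 / (3 * v 1) * ((!![1 / 2, 0; 0, 2] *ᵥ v) 0 - 1 / 2 * v 0)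
        rw [hX0]; ring
      · change (1 : ℂ) = 2 / (3 * v 1) * ((!![1 / 2, 0; 0, 2] *ᵥ v) 1 - 1 / 2 * v 1)
        rw [hX1]; field_simp; ring
    have q0 : (![1, 0] : Fin 2 → ℂ) ∈ W → W = ⊤ := by
      intro h
      have h1 := p1 _ (hW _ h).2.2.2 (by simp [mulVec, dotProduct, Fin.sum_univ_two])
      rw [eq_top_iff]
      intro v _
      have := add_mem (W.smul_mem (v 0) h) (W.smul_mem (v 1) h1)
      convert this using 1
      ext i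
      fin_cases i <;> simp
    by_cases hb : W = ⊥
    · exact Or.inl hb
    right
    obtain ⟨v, hv, hne⟩ := (Submodule.ne_bot_iff W).1 hb
    by_cases a0 : v 0 = 0
    · have a1 : v 1 ≠ 0 := by
        intro a1
        apply hne
        ext i
        fin_cases i <;> simp [a0, a1]
      exact q0 (p0 _ (hW _ (p1 v hv a1)).2.2.1 (by simp [mulVec, dotProduct, Fin.sum_univ_two]))
    · exact q0 (p0 v hv a0)
  · exact Submodule.subset_span (by simp)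
  · have e : (!![0, 1; 1, 0] : Matrix (Fin 2) (Fin 2) ℂ) =
        (2 / 3 : ℂ) • (!![2, 3 / 2; 0, 1 / 2] - !![2, 0; -3 / 2, 1 / 2]) := by
      refine ext2 ?_ ?_ ?_ ?_ <;> simp <;> norm_num
    rw [InSpan, e]
    exact Submodule.smul_mem _ _
      (sub_mem (Submodule.subset_span (by simp)) (Submodule.subset_span (by simp)))
  · refine ⟨!![1, 1; 1, -1], !![1 / 2, 1 / 2; 1 / 2, -1 / 2], ext2 ?_ ?_ ?_ ?_, ext2 ?_ ?_ ?_ ?_,
      diag2 _ ?_ ?_, irr2 _ ?_ ?_, irr2 _ ?_ ?_⟩ <;> simp <;> norm_num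
  · refine ⟨!![2, 1; 1, -2], !![2 / 5, 1 / 5; 1 / 5, -2 / 5], ext2 ?_ ?_ ?_ ?_, ext2 ?_ ?_ ?_ ?_,
      diag2 _ ?_ ?_, irr2 _ ?_ ?_, irr2 _ ?_ ?_⟩ <;> simp <;> norm_num
  · refine ⟨transposeLinearEquiv (Fin 2) (Fin 2) ℂ ℂ, ?_, ?_, ?_, ?_⟩
    · simp
    · intro M N
      simp [transpose_mul]
    · refine ext2 ?_ ?_ ?_ ?_ <;> simp
    · refine ext2 ?_ ?_ ?_ ?_ <;> simp
  · rintro σ ⟨h1, _, h2, h3⟩
    have e : (!![3, 4; 4, -3] : Matrix (Fin 2) (Fin 2) ℂ) =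
        (5 : ℂ) • 1 + (-4 : ℂ) • !![1 / 2, 0; 0, 2] + (4 : ℂ) • !![0, 1; 1, 0] := by
      refine ext2 ?_ ?_ ?_ ?_ <;> simp <;> norm_num
    have : σ !![3, 4; 4, -3] = !![3, 4; 4, -3] := by
      rw [e, map_add, map_add, map_smul, map_smul, map_smul, h1, h2, h3]
    rw [this]
    exact hC

end Pool.Agent.Results.MP_a7ee28_al.NotInSpan
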